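import Mathlib

set_option autoImplicit false

namespace Pool.Agent.Results.MP_f83094_an.Counter

open TensorProduct

open FreeAlgebra in
inductive R : FreeAlgebra ℂ (Fin 4) → FreeAlgebra ℂ (Fin 4) → Prop
  | xy : R (ι ℂ 0 * ι ℂ 1) 1
  | yx : R (ι ℂ 1 * ι ℂ 0) 1
  | gg : R (ι ℂ 2 * ι ℂ 2) 1
  | gx : R (ι ℂ 2 * ι ℂ 0) (ι ℂ 0 * ι ℂ 2)
  | gb : R (ι ℂ 2 * ι ℂ 3) (ι ℂ 3 * ι ℂ 2)
  | bx : R (ι ℂ 3 * ι ℂ 0 + ι ℂ 0 * ι ℂ 2) (ι ℂ 0 * ι ℂ 3 + ι ℂ 0)

def A : Type := RingQuot R

noncomputable section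

instance : Ring A := inferInstanceAs (Ring (RingQuot R))
instance : Algebra ℂ A := inferInstanceAs (Algebra ℂ (RingQuot R))

def mk : FreeAlgebra ℂ (Fin 4) →ₐ[ℂ] A := RingQuot.mkAlgHom ℂ R

lemma rel {u v : FreeAlgebra ℂ (Fin 4)} (h : R u v) : mk u = mk v := RingQuot.mkAlgHom_rel ℂ h

lemma surj : Function.Surjective mk := RingQuot.mkAlgHom_surjective ℂ R

def x : A := mk (FreeAlgebra.ι ℂ 0)
def y : A := mk (FreeAlgebra.ι ℂ 1)
def g : A := mk (FreeAlgebra.ι ℂ 2)
def b : A := mk (FreeAlgebra.ι ℂ 3)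

lemma xy : x * y = 1 := by simpa [x, y] using rel R.xy
lemma yx : y * x = 1 := by simpa [x, y] using rel R.yx
lemma gg : g * g = 1 := by simpa [g] using rel R.gg
lemma gx : g * x = x * g := by simpa [x, g] using rel R.gx
lemma gb : g * b = b * g := by simpa [b, g] using rel R.gb
lemma bx' : b * x + x * g = x * b + x := by simpa [x, g, b] using rel R.bx
lemma bx : b * x = x * b + x - x * g := eq_sub_of_add_eq bx'

lemma gy : g * y = y * g := by
  calc g * y = (y * x) * g * y := by rw [yx, one_mul]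
    _ = y * (g * x) * y := by rw [gx, mul_assoc y x g]
    _ = y * g * (x * y) := by simp only [mul_assoc]
    _ = y * g := by rw [xy, mul_one]

lemma by' : b * y = y * b - y + y * g := by
  have h : y * (b * x) * y = y * (x * b + x - x * g) * y := by rw [bx]
  have h1 : y * (b * x) * y = y * b := by rw [mul_assoc, mul_assoc, xy, mul_one]
  have h2 : y * (x * b + x - x * g) * y = b * y + y - y * g := by
    simp only [mul_add, mul_sub, ← mul_assoc, yx, one_mul, add_mul, sub_mul, gy]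
  rw [h1, h2] at h
  rw [h]; abel

variable {B : Type} [Semiring B] [Algebra ℂ B]

def lift (p q r s : B) (h : p * q = 1 ∧ q * p = 1 ∧ r * r = 1 ∧ r * p = p * r ∧ r * s = s * r ∧
    s * p + p * r = p * s + p) : A →ₐ[ℂ] B :=
  RingQuot.liftAlgHom ℂ ⟨FreeAlgebra.lift ℂ ![p, q, r, s], by
    rintro _ _ (_ | _ | _ | _ | _ | _) <;> simp [h]⟩

lemma lift_mk (p q r s : B) (h) (u : FreeAlgebra ℂ (Fin 4)) :
    lift p q r s h (mk u) = FreeAlgebra.lift ℂ ![p, q, r, s] u :=
  RingQuot.liftAlgHom_mkAlgHom_apply ℂ _ _ u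

@[simp] lemma lx (p q r s : B) (h) : lift p q r s h x = p := by simp [lift_mk, x]
@[simp] lemma ly (p q r s : B) (h) : lift p q r s h y = q := by simp [lift_mk, y]
@[simp] lemma lg (p q r s : B) (h) : lift p q r s h g = r := by simp [lift_mk, g]
@[simp] lemma lb (p q r s : B) (h) : lift p q r s h b = s := by simp [lift_mk, b]

lemma ext {f f' : A →ₐ[ℂ] B} (h1 : f x = f' x) (h2 : f y = f' y) (h3 : f g = f' g)
    (h4 : f b = f' b) : f = f' := by
  have : f.comp mk = f'.comp mk := FreeAlgebra.hom_ext (funext fun i => by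
    fin_cases i <;> assumption)
  ext1 a
  obtain ⟨u, rfl⟩ := surj a
  exact AlgHom.congr_fun this u

def Δ : A →ₐ[ℂ] A ⊗[ℂ] A := lift (x ⊗ₜ x) (y ⊗ₜ y) (g ⊗ₜ g) (b ⊗ₜ 1 + g ⊗ₜ b) (by
  refine ⟨?_, ?_, ?_, ?_, ?_, ?_⟩ <;>
    simp only [mul_add, add_mul, Algebra.TensorProduct.tmul_mul_tmul, xy, yx, gg, gx, gb, bx,
      Algebra.TensorProduct.one_def, mul_one, one_mul, add_tmul, tmul_add, sub_tmul, tmul_sub]
  abel)

def ε : A →ₐ[ℂ] ℂ := lift 1 1 1 0 (by simp)

def S : A →ₐ[ℂ] Aᵐᵒᵖ := lift (.op y) (.op x) (.op g) (.op (-(g * b))) (by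
  refine ⟨?_, ?_, ?_, ?_, ?_, ?_⟩
  · rw [← MulOpposite.op_mul, xy, MulOpposite.op_one]
  · rw [← MulOpposite.op_mul, yx, MulOpposite.op_one]
  · rw [← MulOpposite.op_mul, gg, MulOpposite.op_one]
  · rw [← MulOpposite.op_mul, ← MulOpposite.op_mul, gy]
  · rw [← MulOpposite.op_mul, ← MulOpposite.op_mul, neg_mul, mul_neg, mul_assoc, ← gb]
  · rw [← MulOpposite.op_mul, ← MulOpposite.op_mul, ← MulOpposite.op_mul, ← MulOpposite.op_add,
      ← MulOpposite.op_add, neg_mul, mul_neg, mul_assoc, by']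
    congr 1
    simp only [mul_add, mul_sub, ← mul_assoc, gy]
    rw [mul_assoc y g g, gg, mul_one]
    abel)

instance : Bialgebra ℂ A := .ofAlgHom Δ ε
  (by apply ext <;> simp [Δ, add_tmul, tmul_add, add_assoc, Algebra.TensorProduct.one_def])
  (by apply ext <;> simp [Δ, ε]) (by apply ext <;> simp [Δ, ε])

lemma cm (a : A) : Coalgebra.comul (R := ℂ) a = Δ a := rfl
lemma cu (a : A) : Coalgebra.counit (R := ℂ) a = ε a := rfl

def T : A →ₗ[ℂ] A := (MulOpposite.opLinearEquiv ℂ).symm.toLinearMap ∘ₗ S.toLinearMap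

lemma T_mul (u v : A) : T (u * v) = T v * T u := by simp [T]
lemma T_one : T 1 = 1 := by simp [T]
lemma Tx : T x = y := by simp [T, S]
lemma Ty : T y = x := by simp [T, S]
lemma Tg : T g = g := by simp [T, S]
lemma Tb : T b = -(g * b) := by simp [T, S]

lemma ind (P : A → Prop) (h0 : ∀ c : ℂ, P (algebraMap ℂ A c)) (hx : P x) (hy : P y) (hg : P g)
    (hb : P b) (hm : ∀ u v, P u → P v → P (u * v)) (ha : ∀ u v, P u → P v → P (u + v)) (a : A) :
    P a := by
  obtain ⟨a, rfl⟩ := surj a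
  induction a using FreeAlgebra.induction with
  | grade0 c => rw [AlgHom.commutes]; exact h0 c
  | grade1 i => fin_cases i <;> assumption
  | mul u v hu hv => rw [map_mul]; exact hm _ _ hu hv
  | add u v hu hv => rw [map_add]; exact ha _ _ hu hv

lemma mulR (t s : A ⊗[ℂ] A) (c : ℂ) (h : LinearMap.mul' ℂ A (T.rTensor A t) = algebraMap ℂ A c) :
    LinearMap.mul' ℂ A (T.rTensor A (t * s)) = c • LinearMap.mul' ℂ A (T.rTensor A s) := by
  induction s using TensorProduct.induction_on with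
  | zero => simp
  | add s s' h1 h2 => simp only [mul_add, map_add, h1, h2, smul_add]
  | tmul u v =>
    have : ∀ t : A ⊗[ℂ] A, LinearMap.mul' ℂ A (T.rTensor A (t * u ⊗ₜ v)) =
        T u * LinearMap.mul' ℂ A (T.rTensor A t) * v := by
      intro t
      induction t using TensorProduct.induction_on with
      | zero => simp
      | add t t' h1 h2 => simp only [add_mul, mul_add, map_add, h1, h2]
      | tmul p q => simp [T_mul, mul_assoc]
    rw [this, h, ← Algebra.commutes, mul_assoc, ← Algebra.smul_def]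
    simp

lemma mulL (t s : A ⊗[ℂ] A) (c : ℂ) (h : LinearMap.mul' ℂ A (T.lTensor A s) = algebraMap ℂ A c) :
    LinearMap.mul' ℂ A (T.lTensor A (t * s)) = c • LinearMap.mul' ℂ A (T.lTensor A t) := by
  induction t using TensorProduct.induction_on with
  | zero => simp
  | add s s' h1 h2 => simp only [add_mul, map_add, h1, h2, smul_add]
  | tmul u v =>
    have : ∀ t : A ⊗[ℂ] A, LinearMap.mul' ℂ A (T.lTensor A (u ⊗ₜ v * t)) =
        u * LinearMap.mul' ℂ A (T.lTensor A t) * T v := by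
      intro t
      induction t using TensorProduct.induction_on with
      | zero => simp
      | add t t' h1 h2 => simp only [add_mul, mul_add, map_add, h1, h2]
      | tmul p q => simp [T_mul, mul_assoc]
    rw [this, h, ← Algebra.commutes, mul_assoc, ← Algebra.smul_def]
    simp

instance : HopfAlgebra ℂ A where
  antipode := T
  mul_antipode_rTensor_comul := by
    ext1 a
    simp only [LinearMap.comp_apply, cm, cu, Algebra.linearMap_apply]
    induction a using ind with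
    | h0 c => simp [Algebra.algebraMap_eq_smul_one, Algebra.TensorProduct.one_def, T_one]
    | hx => simp [Δ, ε, Tx, yx]
    | hy => simp [Δ, ε, Ty, xy]
    | hg => simp [Δ, ε, Tg, gg]
    | hb => simp [Δ, ε, Tb, Tg]
    | hm u v hu hv => rw [map_mul, mulR _ _ _ hu, hv, map_mul, map_mul, Algebra.smul_def]
    | ha u v hu hv => simp only [map_add, hu, hv]
  mul_antipode_lTensor_comul := by
    ext1 a
    simp only [LinearMap.comp_apply, cm, cu, Algebra.linearMap_apply]
    induction a using ind with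
    | h0 c => simp [Algebra.algebraMap_eq_smul_one, Algebra.TensorProduct.one_def, T_one]
    | hx => simp [Δ, ε, Tx, xy]
    | hy => simp [Δ, ε, Ty, yx]
    | hg => simp [Δ, ε, Tg, gg]
    | hb => simp [Δ, ε, Tb, T_one, ← mul_assoc, gg]
    | hm u v hu hv =>
      rw [map_mul, mulL _ _ _ hv, hu, map_mul, mul_comm (ε u), map_mul, Algebra.smul_def]
    | ha u v hu hv => simp only [map_add, hu, hv]

def sh (k : ℤ) : Module.End ℂ (ℤ → ℂ) := LinearMap.funLeft ℂ ℂ fun n => n + k

def dg : Module.End ℂ (ℤ → ℂ) := LinearMap.mulLeft ℂ fun n => 2 * (n : ℂ)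

def ρ : A →ₐ[ℂ] Module.End ℂ (ℤ → ℂ) := lift (sh (-1)) (sh 1) (-1) dg (by
  refine ⟨?_, ?_, ?_, ?_, ?_, ?_⟩ <;> refine LinearMap.ext fun f => funext fun n => ?_ <;>
    simp [sh, dg, LinearMap.funLeft_apply]
  ring)

lemma ne : (1 - g : A) ≠ 0 := fun h => by
  have := congrFun (LinearMap.congr_fun (congrArg ρ h) fun _ => 1) 0
  simp [ρ] at this

lemma comm (n : ℕ) : b * (x ^ n * (1 - g)) - x ^ n * (1 - g) * b = (2 * n : ℂ) • (x ^ n * (1 - g)) := by
  have e : (1 - g) * (1 - g) = (2 : ℂ) • (1 - g) := by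
    rw [two_smul]; simp only [mul_sub, sub_mul, one_mul, mul_one, gg]; abel
  have c : (1 - g) * b = b * (1 - g) := by simp only [mul_sub, sub_mul, one_mul, mul_one, gb]
  have k : ∀ n : ℕ, b * x ^ n = x ^ n * b + (n : ℂ) • (x ^ n * (1 - g)) := by
    intro n
    induction n with
    | zero => simp
    | succ n ih =>
      have c' : (1 - g) * x = x * (1 - g) := by simp only [mul_sub, sub_mul, one_mul, mul_one, gx]
      rw [pow_succ, ← mul_assoc, ih, add_mul, mul_assoc (x ^ n) b x, bx, smul_mul_assoc,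
        mul_assoc (x ^ n) (1 - g) x, c']
      simp only [Nat.cast_add, Nat.cast_one, add_smul, one_smul, mul_add, mul_sub, mul_one, mul_assoc]
      abel
  rw [← mul_assoc, k, add_mul, mul_assoc (x ^ n) (1 - g) b, c, smul_mul_assoc,
    mul_assoc (x ^ n) (1 - g), e, mul_smul_comm, smul_smul, mul_comm (n : ℂ) 2, mul_assoc (x ^ n) b]
  abel

end

theorem result : ∃ (H : Type) (_ : Ring H) (_ : HopfAlgebra ℂ H), Algebra.FiniteType ℂ H ∧
    ∃ h : H, h ≠ 0 ∧ ∀ p : Seminorm ℂ H, (∀ u v, p (u * v) ≤ p u * p v) → p h = 0 := by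
  refine ⟨A, inferInstance, inferInstance, Algebra.FiniteType.of_surjective mk surj,
    1 - g, ne, fun p hp => ?_⟩
  obtain ⟨n, hn⟩ := exists_nat_gt (p b)
  have h1 : 2 * n * p (x ^ n * (1 - g)) ≤ 2 * p b * p (x ^ n * (1 - g)) := by
    have h2 := map_sub_le_add p (b * (x ^ n * (1 - g))) (x ^ n * (1 - g) * b)
    rw [comm, map_smul_eq_mul] at h2
    have h3 := hp b (x ^ n * (1 - g))
    have h4 := hp (x ^ n * (1 - g)) b
    have h5 : ‖(2 * n : ℂ)‖ = 2 * n := by simp
    rw [h5] at h2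
    linarith
  have h0 : p (x ^ n * (1 - g)) = 0 := by
    have := apply_nonneg p (x ^ n * (1 - g))
    nlinarith
  have h6 : y ^ n * (x ^ n * (1 - g)) = 1 - g := by
    have : Commute y x := yx.trans xy.symm
    rw [← mul_assoc, ← this.mul_pow, yx, one_pow, one_mul]
  have h7 := hp (y ^ n) (x ^ n * (1 - g))
  rw [h6, h0, mul_zero] at h7
  exact le_antisymm h7 (apply_nonneg p _)

end Pool.Agent.Results.MP_f83094_an.Counter
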